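import Mathlib
import Pool.Agent.H24.FA5

set_option autoImplicit false

universe u

namespace Pool.Agent.Results.MP_cfda27_lc.Unital

open Pool.Agent.H24.FA

/-- Over every field `k`, no set of first-order sentences axiomatizes `D₀` within `D`
(unital convention). -/
theorem result (k : Type u) [Field k] : ¬ ∃ T : (algSig k).Theory, AxiomatizesFreeness k T :=
  final k

end Pool.Agent.Results.MP_cfda27_lc.Unital
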